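import Pool.Agent.Lib.L8.PV.Stm
import Pool.Agent.Lib.L8.FV8
import Pool.Agent.Lib.L8.FVQ3

/-!
# The equivalence of the two forms of the statement: the local group, the embedding of the local group
-/

namespace Pool.Agent.Lib.L8.PV

open MeasureTheory Matrix NumberField IsDedekindDomain Topology

noncomputable section

set_option linter.unusedSectionVars false

variable {ι M N : Type} [Fintype ι] [DecidableEq ι] [AddCommGroup M] [Module ℚ M] [AddCommGroup N] [Module ℚ N]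
  {P : RootPairing ι ℚ M N} [P.IsCrystallographic] [P.IsRootSystem] [P.IsReduced] [P.IsIrreducible] {b : P.Base}

/-- The height. -/
abbrev h0 (b : P.Base) : b.support ⊕ ι → ℤ := Sum.elim (fun _ => 0) b.height

/-- The exponents of `exp(y)`. -/
abbrev tor0 (b : P.Base) : (b.support → ℝ) → b.support ⊕ ι → ℝ := fun y => Sum.elim (fun _ => 0) (vl b y)

/-- `e_i`, `f_i`. -/
abbrev eQ (b : P.Base) : b.support → Matrix (b.support ⊕ ι) (b.support ⊕ ι) ℚ := RootPairing.GeckConstruction.e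

abbrev fQ (b : P.Base) : b.support → Matrix (b.support ⊕ ι) (b.support ⊕ ι) ℚ := RootPairing.GeckConstruction.f

section loc

variable {F : Type} [RCLike F]

theorem gf_eq : GF (eQ b) (fQ b) F = L8.GFs b F := rfl

theorem pry_inl (y : b.support → ℝ) (i : b.support) : L8.pry b y (Sum.inl i) = 0 := by
  unfold L8.pry
  refine Finset.sum_eq_zero fun j _ => ?_
  have h : L1S.pj b j (Sum.inl i) = 0 := rfl
  rw [h, Int.cast_zero, zero_mul]

theorem pry_inr (y : b.support → ℝ) (β : ι) : L8.pry b y (Sum.inr β) = vl b y β := rfl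

theorem tor_eq (y : b.support → ℝ) : tor0 b y = L8.pry b y := by
  funext r
  rcases r with i | β
  · exact (pry_inl y i).symm
  · rfl

/-- The subgroup of `G(F)` generated by the root elements is dense. -/
theorem gf_dense {S : Subgroup (L8.GF b F)} (hc : IsClosed (S : Set (L8.GF b F))) (h1 : ∀ (i : b.support) (t : F), L8.gx b F (i : ι) t ∈ S) (h2 : ∀ (i : b.support) (t : F), L8.gx b F (L1S.ng P i) t ∈ S) (g : L8.GF b F) :
    g ∈ S := by
  have k1 : L1S.GQ b F ≤ S.map (Subgroup.subtype _) := by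
    rw [L1S.GQ_eq, Subgroup.closure_le]
    rintro _ ⟨i, t, rfl | rfl⟩
    · exact ⟨_, h1 i t, rfl⟩
    · exact ⟨_, h2 i t, rfl⟩
  have k2 : IsClosed ((S.map (Subgroup.subtype _) : Subgroup (GL (L1S.I b) F)) : Set (GL (L1S.I b) F)) := by
    have h3 : Topology.IsClosedEmbedding (Subtype.val : L8.GF b F → GL (L1S.I b) F) := (Subgroup.isClosed_topologicalClosure (L1S.GQ b F)).isClosedEmbedding_subtypeVal
    exact h3.isClosedMap _ hc
  obtain ⟨g', hg', e⟩ := closure_minimal k1 k2 g.2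
  have e' : g' = g := Subtype.ext e
  rw [← e']
  exact hg'

theorem gx_exp (i : b.support) (t : F) : (L8.gx b F (i : ι) t).1.1 = IsNilpotent.exp (t • (eQ b i).map (algebraMap ℚ F)) := by
  have h1 : (L8.gx b F (i : ι) t).1.1 = L1S.ex (L1S.eZ b i) t := by
    show L1S.ex (L1S.E b i) t = _
    rw [L1S.E_simple]
  rw [h1, (L1S.DP_eZ i).ex_eq_exp, ← L1S.eM_eq]
  rfl

theorem gy_exp (i : b.support) (t : F) : (L8.gx b F (L1S.ng P i) t).1.1 = IsNilpotent.exp (t • (fQ b i).map (algebraMap ℚ F)) := by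
  have h1 : (L8.gx b F (L1S.ng P i) t).1.1 = L1S.ex (L1S.fZ b i) t := by
    show L1S.ex (L1S.E b (L1S.ng P i)) t = _
    rw [L1S.E_neg_simple]
  rw [h1, (L1S.DP_fZ i).ex_eq_exp, ← L1S.fM_eq]
  rfl

/-- **The maximal compact subgroup.** -/
theorem maxC_eq {C : Subgroup (L8.GF b F)} (h : MaxC (eQ b) (fQ b) F C) : C = L8.gK b F := by
  obtain ⟨ϑ, cϑ, h1, h2⟩ := h
  have k0 : ∀ g g' : L8.GF b F, g.1.1 = g'.1.1 → g = g' := fun g g' e => Subtype.ext (Units.ext e)
  have k1 : ∀ (i : b.support) (t : F), ϑ (L8.gx b F (i : ι) t) = (L8.gst b F (L8.gx b F (i : ι) t))⁻¹ := fun i t => by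
    rw [L8.gst_gx, ← L8.gx_neg]
    refine k0 _ _ ?_
    rw [gy_exp]
    exact (h1 i t _).1 (gx_exp i t)
  have k2 : ∀ (i : b.support) (t : F), ϑ (L8.gx b F (L1S.ng P i) t) = (L8.gst b F (L8.gx b F (L1S.ng P i) t))⁻¹ := fun i t => by
    rw [L8.gst_gy, ← L8.gx_neg]
    refine k0 _ _ ?_
    rw [gx_exp]
    exact (h1 i t _).2 (gy_exp i t)
  have key : ∀ g : L8.GF b F, ϑ g = (L8.gst b F g)⁻¹ := by
    let ϑ' : L8.GF b F →* L8.GF b F := {
      toFun := fun g => (L8.gst b F g)⁻¹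
      map_one' := by rw [L8.gst_one, inv_one]
      map_mul' := fun g g' => by rw [L8.gst_mul, _root_.mul_inv_rev] }
    let ϑ₁ : L8.GF b F →* L8.GF b F := ϑ
    have c0 : Continuous ϑ₁ := cϑ
    have c1 : Continuous fun g : L8.GF b F => (L8.gst b F g)⁻¹ := (L8.gst_cont b F).inv
    have hc : IsClosed ((ϑ₁.eqLocus ϑ' : Subgroup (L8.GF b F)) : Set (L8.GF b F)) := isClosed_eq c0 c1
    exact gf_dense hc k1 k2
  ext g
  constructor
  · intro hg
    have e : (L8.gst b F g)⁻¹ = g := (key g).symm.trans ((h2 g).1 hg)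
    exact inv_eq_iff_eq_inv.1 e
  · intro hg
    have e : L8.gst b F g = g⁻¹ := hg
    refine (h2 g).2 ((key g).trans ?_)
    rw [e, inv_inv]

theorem hm_of {C : Subgroup (L8.GF b F)} {ζ : Measure (L8.GF b F)} (h0 : C = L8.gK b F) (h : Hm (e := eQ b) (f := fQ b) C ζ) : L8.IsHK b F ζ := by
  subst h0
  exact h

theorem iw_of {C : Subgroup (L8.GF b F)} {h : L8.GF b F → b.support → ℝ} (h1 : C = L8.gK b F) (h2 : Iw (e := eQ b) (f := fQ b) (h0 b) (tor0 b) C h) : L8.IsIw b F h := by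
  subst h1
  intro g
  obtain ⟨u, hu, t, k, hk, ht, e⟩ := h2 g
  refine ⟨u, ?_, k, hk, ?_⟩
  · intro r c hrc
    exact (hu r c (by
      have : L1S.ht b r < L1S.ht b c + 1 := hrc
      exact Int.lt_add_one_iff.1 this)).1
  · have ht' : t = L8.gex b F (h g) := by
      refine Subtype.ext (Units.ext ?_)
      rw [ht, tor_eq]
      rfl
    rw [← ht']
    exact e

/-- **Spherical eigenfunctions.** -/
theorem sph_of {L : Type} [Field L] [NumberField L] {H : Subgroup (L1S.GK b L)} {e : (b.support → ℝ) → b.support → ℝ} (V : L8.PlH H F e) {z : b.support → ℂ} {X : L1S.HRt H → ℂ}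
    (h : Sph (e := eQ b) (f := fQ b) (h0 b) (tor0 b) V.j z X) : L8.SphV V z X := by
  obtain ⟨C, ζ, hp, h1, h2, h3, h4⟩ := h
  have h5 := maxC_eq h1
  exact ⟨ζ, hp, hm_of h5 h2, iw_of h5 h3, h4⟩

end loc

end

end Pool.Agent.Lib.L8.PV
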