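import Pool.Agent.Lib.L8.PV.Place

/-!
# The density theorem with explicit exponents at an archimedean place: the equivalence of the two forms of the statement
-/

namespace Pool.Agent.Lib.L8.PV

open MeasureTheory Matrix NumberField IsDedekindDomain Topology
open scoped ENNReal

noncomputable section

set_option linter.unusedSectionVars false

section field

variable {K : Type} [Field K] [NumberField K]

/-- There is a finite place which does not divide an ideal. -/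
theorem ex_v {𝔫 : Ideal (𝓞 K)} (h : 𝔫 ≠ ⊥) : ∃ v : HeightOneSpectrum (𝓞 K), ¬𝔫 ≤ v.asIdeal := by
  obtain ⟨p, hp1, hp2⟩ := Nat.exists_infinite_primes (Ideal.absNorm 𝔫 + 1)
  have hn : Ideal.absNorm 𝔫 ≠ 0 := fun e => h (Ideal.absNorm_eq_zero_iff.1 e)
  have hco : Nat.Coprime p (Ideal.absNorm 𝔫) := by
    rw [Nat.Prime.coprime_iff_not_dvd hp2]
    intro hd
    have := Nat.le_of_dvd (Nat.pos_of_ne_zero hn) hd
    omega
  have hne : Ideal.span {(p : 𝓞 K)} ≠ ⊤ := by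
    intro e
    have h1 : IsUnit ((p : ℤ) : 𝓞 K) := by
      have h2 := Ideal.span_singleton_eq_top.1 e
      push_cast
      exact h2
    have h3 := h1.map (Algebra.norm ℤ)
    have h4 : Algebra.norm ℤ ((p : ℤ) : 𝓞 K) = (p : ℤ) ^ Module.finrank ℤ (𝓞 K) := by
      have := Algebra.norm_algebraMap_of_basis (RingOfIntegers.basis K) (p : ℤ)
      rw [← Module.finrank_eq_card_basis (RingOfIntegers.basis K)] at this
      exact this
    rw [h4] at h3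
    have h5 : Module.finrank ℤ (𝓞 K) ≠ 0 := by
      rw [RingOfIntegers.rank]
      exact Module.finrank_pos.ne'
    have h6 := (isUnit_pow_iff h5).1 h3
    rw [Int.isUnit_iff] at h6
    have := hp2.one_lt
    omega
  obtain ⟨m, hm, hle⟩ := Ideal.exists_le_maximal _ hne
  have hp0 : (p : 𝓞 K) ≠ 0 := by exact_mod_cast hp2.ne_zero
  have hmb : m ≠ ⊥ := by
    intro e
    rw [e, Ideal.span_le] at hle
    exact hp0 (by simpa using hle)
  refine ⟨⟨m, hm.isPrime, hmb⟩, fun hc => ?_⟩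
  have h1 : (p : 𝓞 K) ∈ m := hle (Ideal.mem_span_singleton_self _)
  have h2 : ((Ideal.absNorm 𝔫 : ℕ) : 𝓞 K) ∈ m := hc (Ideal.absNorm_mem 𝔫)
  have h3 : ∃ a b : ℤ, a * p + b * Ideal.absNorm 𝔫 = 1 := by
    have := Nat.isCoprime_iff_coprime.2 hco
    exact this
  obtain ⟨a, b, hab⟩ := h3
  have h4 : (1 : 𝓞 K) = (a : 𝓞 K) * p + (b : 𝓞 K) * (Ideal.absNorm 𝔫 : ℕ) := by
    have := congrArg (Int.cast : ℤ → 𝓞 K) hab
    push_cast at this
    exact this.symm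
  have h5 : (1 : 𝓞 K) ∈ m := by
    rw [h4]
    exact m.add_mem (m.mul_mem_left _ h1) (m.mul_mem_left _ h2)
  exact hm.ne_top ((Ideal.eq_top_iff_one _).2 h5)

end field

variable {ι M N : Type} [Fintype ι] [DecidableEq ι] [AddCommGroup M] [Module ℚ M] [AddCommGroup N] [Module ℚ N]
  {P : RootPairing ι ℚ M N} [P.IsCrystallographic] {b : P.Base} {K L : Type} [Field K] [NumberField K] [Field L] [NumberField L] [Algebra K L] (Q : QS b K L)

/-! ## Levels -/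

theorem gamA_eq (𝔫 : Ideal (𝓞 K)) (v : HeightOneSpectrum (𝓞 K)) : GamA 𝔫 (GL' L b) = L1S.GamL b L 𝔫 v 0 0 := by
  have top : ∀ (a : Ideal (𝓞 K)) (x : L), L1S.InI (L1S.up L a) x → L1S.InI (L1S.up L (v.asIdeal ^ 0)) x := by
    intro a x ⟨y, _, e⟩
    refine ⟨y, ?_, e⟩
    have h1 : L1S.up L (v.asIdeal ^ 0) = ⊤ := by
      rw [pow_zero, Ideal.one_eq_top]
      exact Ideal.map_top _
    rw [h1]
    exact Submodule.mem_top
  have one : ∀ r c : b.support ⊕ ι, L1S.ht b r < L1S.ht b c → (1 : Matrix (b.support ⊕ ι) (b.support ⊕ ι) L) r c = 0 := fun r c h => Matrix.one_apply_ne (by rintro rfl; exact absurd h (lt_irrefl _))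
  ext g
  constructor
  · intro h r c
    have e1 : ∀ g : Matrix (b.support ⊕ ι) (b.support ⊕ ι) L, L1S.ht b r < L1S.ht b c → (g - 1) r c = g r c := fun g hrc => by rw [Matrix.sub_apply, one r c hrc, sub_zero]
    refine ⟨⟨h.1 r c, fun hrc => ?_, fun _ => top 𝔫 _ (h.1 r c)⟩, ⟨h.2 r c, fun hrc => ?_, fun _ => top 𝔫 _ (h.2 r c)⟩⟩
    · have h1 := top 𝔫 _ (h.1 r c)
      rw [e1 _ hrc] at h1
      exact h1
    · have h1 := top 𝔫 _ (h.2 r c)
      rw [e1 _ hrc] at h1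
      exact h1
  · intro h
    exact ⟨fun r c => (h r c).1.1, fun r c => (h r c).2.1⟩

theorem gam_eq (𝔫 : Ideal (𝓞 K)) (v : HeightOneSpectrum (𝓞 K)) : Gam 𝔫 (emR Q) = L1S.GamHR (L1S.HQ (old Q)) 𝔫 v 0 0 := by
  unfold Gam
  rw [gamA_eq 𝔫 v]
  rfl

theorem ur_eq : UR Q = L1S.UHR (L1S.HQ (old Q)) := rfl

theorem gen_of (𝔫 : Ideal (𝓞 K)) (v : HeightOneSpectrum (𝓞 K)) {θ : b.support → (mixedEmbedding.mixedSpace L →ₗ[ℝ] ℝ)}
    (h : Gen (UR Q) (mixedEmbedding L) (Gam 𝔫 (emR Q)) (fun i => (Sum.inl i, Sum.inr (P.reflectionPerm i i))) (sp Q) θ) :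
    L1S.GenQ (old Q) 𝔫 v 0 0 θ := by
  refine ⟨h.1, fun u hu => h.2 u ?_⟩
  rw [gam_eq Q 𝔫 v]
  exact hu

variable [P.IsRootSystem]

theorem phi_eq (i : b.support) : Phi b i = L1S.Phi b i := rfl

theorem opp_eq (i j : b.support) : Opp b i j = L1S.Opp b i j := rfl

variable [P.IsReduced] [P.IsIrreducible]

/-! ## The orbit -/

theorem vl_inj {y y' : b.support → ℝ} (h : ∀ β, vl b y β = vl b y' β) : y = y' := by
  funext i
  have h1 := L8.sum_phi (b := b) i y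
  have h2 := L8.sum_phi (b := b) i y'
  have h3 : ∑ β ∈ L1S.Phi b i, L8.pry b y (Sum.inr β) = ∑ β ∈ L1S.Phi b i, L8.pry b y' (Sum.inr β) := Finset.sum_congr rfl fun β _ => h β
  rw [h1, h2] at h3
  have h4 : (0 : ℝ) < ((L8.cw b i : ℤ) : ℝ) := by exact_mod_cast L8.cw_pos i
  exact mul_left_cancel₀ h4.ne' h3

theorem orb_of {Λ y : b.support → ℝ} (h : y ∈ Orb b Λ) : ∃ l : List b.support, y = L8.wl (fun i j => b.cartanMatrix i j) l Λ := by
  obtain ⟨w, hw, h1⟩ := h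
  obtain ⟨l, hl, e⟩ := L1S.b2_gen b hw
  obtain ⟨l', rfl⟩ := L8.lift_list l hl
  have h2 : L1S.wl P (l'.map (fun i : b.support => (i : ι))) = L1S.wL b l' := by
    unfold L1S.wl L1S.wL
    rw [List.map_map]
    rfl
  have h3 : w = L1S.wL b l' := e.trans h2
  refine ⟨l', vl_inj fun γ => ?_⟩
  obtain ⟨β, rfl⟩ := w.surjective γ
  rw [h1 β]
  have h4 := L8.pry_wl l' Λ β
  rw [← h3] at h4
  exact h4.symm

/-! ## The size condition -/

theorem sr_tr (Λ : b.support → ℝ) (i : b.support) : L8.SR b i (L8.trQ (old Q) Λ) = ∑ β ∈ Phi b i, ∑ s : L ≃ₐ[K] L, vl b Λ (Q.act s β) := by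
  unfold L8.SR
  exact Finset.sum_congr rfl fun β _ => L8.trQ_pry (old Q) Λ β

theorem sz_of {𝔫 : Ideal (𝓞 K)} {v : HeightOneSpectrum (𝓞 K)} {dF : ℕ} {R : ℝ} {Λ : b.support → ℝ} {a : ι → (mixedEmbedding.mixedSpace L)ˣ}
    (h : Sz b ((Ideal.absNorm 𝔫 : ℝ) ^ Module.finrank K L) (fun β => dF * R * ∑ s : L ≃ₐ[K] L, vl b Λ (Q.act s β)) (fun β => mixedEmbedding.norm (a β : mixedEmbedding.mixedSpace L))) :
    L8.Sz4 b L 𝔫 v 0 0 0 0 (fun _ => 1) (fun i j => L8.Ea b a i j * Real.exp (-(dF * R * (L8.SR b i (L8.trQ (old Q) Λ) + L8.SR b j (L8.trQ (old Q) Λ))))) := by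
  intro i j hO
  have e0 : ((Ideal.absNorm v.asIdeal : ℝ) ^ (L1S.Sl b i 0 + L1S.Sl b j 0)) ^ Module.finrank K L * 1 = 1 := by
    have h1 : ∀ i : b.support, L1S.Sl b i 0 = 0 := fun i => Finset.sum_eq_zero fun β _ => by
      show ∑ j : b.support, (0 : ℤ) * P.pairingIn ℤ β j = 0
      simp
    rw [h1, h1, add_zero, zpow_zero, one_pow, mul_one]
  have eS : S2 b i j (fun β => dF * R * ∑ s : L ≃ₐ[K] L, vl b Λ (Q.act s β)) = dF * R * (L8.SR b i (L8.trQ (old Q) Λ) + L8.SR b j (L8.trQ (old Q) Λ)) := by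
    unfold S2
    rw [sr_tr, sr_tr, ← Finset.mul_sum, ← Finset.mul_sum, mul_add]
  have eE : ((∏ β ∈ Phi b i, mixedEmbedding.norm (a β : mixedEmbedding.mixedSpace L)) * ∏ β ∈ Phi b j, mixedEmbedding.norm (a β : mixedEmbedding.mixedSpace L)) = L8.Ea b a i j := rfl
  obtain ⟨S, hS⟩ : ∃ S, S = dF * R * (L8.SR b i (L8.trQ (old Q) Λ) + L8.SR b j (L8.trQ (old Q) Λ)) := ⟨_, rfl⟩
  obtain ⟨E, hE⟩ : ∃ E, E = L8.Ea b a i j := ⟨_, rfl⟩
  have h2 := h i j hO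
  rw [eS, eE, ← hS, ← hE] at h2
  show ((Ideal.absNorm v.asIdeal : ℝ) ^ (L1S.Sl b i 0 + L1S.Sl b j 0)) ^ Module.finrank K L * 1 ≤ _ ∨ ∃ (l : b.support) (T : ℕ), (∀ β, L1S.mc b l (Sum.inr β) ≤ T) ∧
    (((Ideal.absNorm v.asIdeal : ℝ) ^ (L1S.Sl b i 0 + L1S.Sl b j 0)) ^ Module.finrank K L * 1) ^ T ≤ _
  rw [e0]
  rcases h2 with h3 | ⟨l, T, hT, h3⟩
  · left
    beta_reduce
    rw [← hS, ← hE, add_zero, pow_zero, mul_one, Real.exp_neg, ← mul_assoc, ← div_eq_mul_inv, one_le_div (Real.exp_pos _)]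
    refine h3.trans (le_of_eq ?_)
    rw [← pow_mul, ← pow_mul, mul_comm (Module.finrank K L)]
    rfl
  · right
    refine ⟨l, T, hT, ?_⟩
    beta_reduce
    rw [← hS, ← hE, one_pow, add_zero, pow_zero, mul_one, mul_pow, Real.exp_neg, inv_pow, ← mul_assoc, ← div_eq_mul_inv, one_le_div (pow_pos (Real.exp_pos _) _)]
    refine h3.trans (le_of_eq ?_)
    have e1 : ((Ideal.absNorm 𝔫 : ℝ) ^ Module.finrank K L) ^ S2 b i j (mc b l) = ((Ideal.absNorm 𝔫 : ℝ) ^ (L1S.SM b i l + L1S.SM b j l)) ^ Module.finrank K L := by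
      rw [← zpow_natCast, ← zpow_natCast, ← _root_.zpow_mul, ← _root_.zpow_mul, mul_comm]
      rfl
    rw [e1]

/-! ## The theorem -/

theorem one_hgl (𝔫 : Ideal (𝓞 K)) (v : HeightOneSpectrum (𝓞 K)) : (1 : L1S.GK b L) ∈ L1S.HGL b L 𝔫 v := by
  refine ⟨0, fun r c => ?_⟩
  have e1 : (1 : L1S.GK b L).1.1 - 1 = 0 := sub_self _
  have e2 : (1 : L1S.GK b L)⁻¹.1.1 - 1 = 0 := by
    rw [inv_one]
    exact sub_self _
  have h : L1S.DenL (L := L) 𝔫 v 0 0 := by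
    intro y _
    rw [mul_zero]
    exact ⟨0, Submodule.zero_mem _, by simp⟩
  rw [e1, e2]
  exact ⟨h, h⟩

theorem one_at (v : HeightOneSpectrum (𝓞 K)) (π : K) : L1S.AtVL b v 0 0 π 0 (1 : L1S.GK b L) := by
  have iv : ∀ x : L, (x = 0 ∨ x = 1) → L1S.IntV v x := by
    rintro x hx
    refine ⟨1, fun h => v.isPrime.ne_top ((Ideal.eq_top_iff_one _).2 h), ?_⟩
    rcases hx with rfl | rfl
    · exact ⟨0, Submodule.mem_top, by simp⟩
    · exact ⟨1, Submodule.mem_top, by simp⟩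
  have i1 : L1S.IwV b v 0 0 π (1 : Matrix (L1S.I b) (L1S.I b) L) := by
    intro r c
    have h1 : (1 : Matrix (L1S.I b) (L1S.I b) L) r c = 0 ∨ (1 : Matrix (L1S.I b) (L1S.I b) L) r c = 1 := by
      by_cases h : r = c
      · right
        rw [h, Matrix.one_apply_eq]
      · left
        exact Matrix.one_apply_ne h
    refine ⟨iv _ h1, fun _ => ?_, fun _ => ?_⟩
    · rw [add_zero, pow_zero, one_mul]
      exact iv _ h1
    · rw [pow_zero, one_mul, sub_self]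
      exact iv _ (Or.inl rfl)
  have e1 : (Matrix.diagonal fun i => algebraMap K L π ^ L1S.pr b 0 i) = (1 : Matrix (L1S.I b) (L1S.I b) L) := by
    rw [← Matrix.diagonal_one]
    congr 1
    funext i
    rcases i with i | β
    · exact zpow_zero _
    · show algebraMap K L π ^ (∑ j : b.support, (0 : ℤ) * P.pairingIn ℤ β j) = 1
      simp
  have e2 : (Matrix.diagonal fun i => algebraMap K L π ^ (-L1S.pr b 0 i)) = (1 : Matrix (L1S.I b) (L1S.I b) L) := by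
    rw [← Matrix.diagonal_one]
    congr 1
    funext i
    rcases i with i | β
    · show algebraMap K L π ^ (-(0 : ℤ)) = 1
      simp
    · show algebraMap K L π ^ (-(∑ j : b.support, (0 : ℤ) * P.pairingIn ℤ β j)) = 1
      simp
  refine ⟨?_, ?_⟩
  · rw [e1, mul_one]
    exact i1
  · rw [e2, one_mul, inv_one]
    exact i1

theorem isT_one {H : Subgroup (L1S.GK b L)} (𝔫 : Ideal (𝓞 K)) (v : HeightOneSpectrum (𝓞 K)) (F : L1S.HRt H → ℂ) : L1S.IsTH H 𝔫 v 0 0 1 F 1 := by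
  have h1 : ∀ w, L1S.InTH H 𝔫 v 0 0 1 w ↔ w ∈ L1S.GamHR H 𝔫 v 0 0 := by
    intro w
    constructor
    · rintro ⟨γ, hγ, γ', hγ', rfl⟩
      rw [map_one, mul_one]
      exact mul_mem hγ hγ'
    · intro hw
      exact ⟨w, hw, 1, one_mem _, by rw [map_one, mul_one, mul_one]⟩
  refine ⟨{1}, fun w hw => ?_, fun w hw => ⟨1, ⟨Finset.mem_singleton_self _, ?_⟩, fun w' hw' => Finset.mem_singleton.1 hw'.1⟩, fun x => ?_⟩
  · rw [Finset.mem_singleton.1 hw, h1]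
    exact one_mem _
  · rw [inv_one, mul_one]
    exact (h1 w).1 hw
  · rw [Finset.sum_singleton, one_mul, one_mul]

theorem mea_zero (μ : Measure (L1S.HRt (L1S.HQ (old Q)))) : L8.MeaM (old Q) μ 0 (fun _ => 0) 1 (fun _ _ => 0) := by
  refine ⟨inferInstance, measurable_const, ⟨0, fun y => by simp⟩, ?_, ∅, isCompact_empty, by simp, fun g hg => absurd hg (Set.notMem_empty g)⟩
  intro f _ _
  have h : ∀ x, L8.Cv (0 : Measure (L1S.HRt (L1S.HQ (old Q)))) (fun _ => 0) f x = 0 := fun x => by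
    unfold L8.Cv
    simp
  simp only [h]
  simp

theorem aut_of (𝔫 : Ideal (𝓞 K)) (v : HeightOneSpectrum (𝓞 K)) {μ : Measure (L1S.HRt (L1S.HQ (old Q)))} {D : Set (L1S.HRt (L1S.HQ (old Q)))} {φ F : L1S.HRt (L1S.HQ (old Q)) → ℂ} {c : ℂ}
    (h : Aut (L1S.GamHR (L1S.HQ (old Q)) 𝔫 v 0 0) μ D φ F c) : L8.AutM (old Q) 𝔫 v 0 0 μ D φ 0 (fun _ => 0) 1 F c 0 1 :=
  ⟨h.cont, h.inv, h.l2, h.eig, fun x => by simp, isT_one 𝔫 v F⟩

theorem pr_zero (β : ι) : L1S.pr b 0 (Sum.inr β) = 0 := by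
  show ∑ j : b.support, (0 : ℤ) * P.pairingIn ℤ β j = 0
  simp

/-- **The density theorem at the place** `V`. -/
theorem est [IsGalois K L] {F : Type} [RCLike F] (V : Pl K (eQ b) (fQ b) (GR Q) F) {Λ : b.support → ℝ} (hΛ : ∀ i : b.support, 0 ≤ vl b Λ i) :
    Est K (mixedEmbedding L) (UR Q) (emR Q) (fun i => (Sum.inl i, Sum.inr (P.reflectionPerm i i))) (sp Q) (Sph (h0 b) (tor0 b) V.j) (Orb b Λ) (Adm Q (Module.finrank ℝ F) Λ) := by
  intro m1 hm1 m2 hm2 ε T hε Ω hΩ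
  obtain rfl : m1 = borel _ := hm1.measurable_eq
  obtain rfl : m2 = borel _ := hm2.measurable_eq
  obtain ⟨V', hV'⟩ := pl_plH V
  have hΛ' : ∀ (_ : Fin 1) i, 0 ≤ L8.al (fun i j => b.cartanMatrix i j) i Λ := fun _ i => by
    have h := hΛ i
    rw [← pry_inr, L8.ig19b_al] at h
    exact h
  have hΩ' : IsCompact ((fun x : L1S.HRt (L1S.HQ (old Q)) => x.1.1) '' Ω) := hΩ.image (continuous_subtype_val.comp continuous_subtype_val)
  obtain ⟨C, hC⟩ := L8.statementV (old Q) 1 (fun _ => F) (fun _ => V') (fun _ => Λ) hΛ' ε hε T _ Ω hΩ' hΩ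
  refine ⟨C, ?_⟩
  rintro 𝔫 h𝔫 θ hθ t x d ht ⟨u, ω, hω, hx⟩ R X hR ⟨a, rfl, hsz, rfl⟩ μ hμ φ cφ sφ ν hν D D₀ hD hD₀ m f c z y hf hort hsp hzT hy
  obtain ⟨v, hv⟩ := ex_v h𝔫
  obtain ⟨π, hπ⟩ : ∃ π : K, v.valuation K π = WithZero.exp (-1 : ℤ) := v.valuation_exists_uniformizer K
  have hu : ∀ β, a β * (t⁻¹).1.1.1 (Sum.inr β) (Sum.inr β) = 1 := by
    intro β
    have h1 : t.1.1.1 * (t⁻¹).1.1.1 = 1 := t.1.1.mul_inv
    have h2 := congrFun (congrFun h1 (Sum.inr β)) (Sum.inr β)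
    rw [ht, Matrix.diagonal_mul, Matrix.one_apply_eq] at h2
    exact h2
  let a' : ι → (mixedEmbedding.mixedSpace L)ˣ := fun β => Units.mkOfMulEqOne _ _ (hu β)
  have hθ' := gen_of Q 𝔫 v hθ
  rw [gam_eq Q 𝔫 v] at hD hD₀ hf
  choose g hg using fun l => orb_of (hy l)
  have k1 := hC v 𝔫 h𝔫 hv 0 0 0 (fun _ _ => rfl) (fun i => by rw [pr_zero]) (Or.inr rfl) π hπ 1 (one_hgl 𝔫 v) (one_at v π) θ hθ' t a' ht x ⟨u, ω.1.1, ⟨ω, hω, rfl⟩, by rw [hx]; rfl⟩
  have e1 : (fun i : b.support => ∏ w : InfinitePlace L, ((fun (_ : b.support) (_ : InfinitePlace L) => (0 : ℝ)) i w) ^ (2 * 0 * w.mult)) = fun _ => 1 := by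
    funext i
    simp
  have e2 : (fun i j => L8.Ea b a' i j * Real.exp (-∑ k : Fin 1, Module.finrank ℝ F * (fun _ : Fin 1 => R) k * (L8.SR b i (L8.trQ (old Q) Λ) + L8.SR b j (L8.trQ (old Q) Λ)))) =
      fun i j => L8.Ea b a' i j * Real.exp (-(Module.finrank ℝ F * R * (L8.SR b i (L8.trQ (old Q) Λ) + L8.SR b j (L8.trQ (old Q) Λ)))) := by
    funext i j
    rw [Fin.sum_univ_one]
  have k2 := @k1 μ 0 hμ (fun _ => 0) 1 (fun _ _ => 0) (fun _ _ => le_rfl) (mea_zero Q μ) (fun _ => R) (fun _ => hR) 0 (by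
    rw [e1, e2]
    exact sz_of (a := a') Q hsz) φ cφ sφ
  have key := @k2 ν hν D hD m f c (fun _ => 0) (fun _ => 1) (fun l => aut_of Q 𝔫 v (hf l)) hort (fun _ => z) (fun _ => hzT)
    (fun _ l => sph_of V' (by
      rw [hV']
      exact hsp l)) D₀ hD₀ (fun _ => g)
  refine le_trans (le_of_eq (Finset.sum_congr rfl fun l _ => ?_)) (key.trans (le_of_eq ?_))
  · rw [Fin.sum_univ_one, pow_zero, mul_one, mul_one, mul_assoc 2 R, hg l]
    rfl
  · rw [mul_zero, pow_zero, mul_one]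
    have e3 : ∑ β ∈ L1S.Pos b, L1S.pr b 0 (Sum.inr β) = 0 := Finset.sum_eq_zero fun β _ => pr_zero β
    rw [e3, zpow_zero, mul_one]
    rfl

/-- **The theorem.** -/
theorem expDensity [IsGalois K L] : ExpDensity Q := ⟨places, fun _ _ V _ hΛ => est Q V hΛ⟩

end

end Pool.Agent.Lib.L8.PV
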