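import Pool.Agent.Lib.L8.PV.Loc

/-!
# The equivalence of the two forms of the statement: the place
-/

namespace Pool.Agent.Lib.L8.PV

open MeasureTheory Matrix NumberField IsDedekindDomain Topology Pool.Agent.Lib.L8

noncomputable section

set_option linter.unusedSectionVars false

section place

variable {L : Type} [Field L] [NumberField L]

/-- The idempotent of a place. -/
theorem ex_idem (w : InfinitePlace L) : ∃ e : mixedEmbedding.mixedSpace L, (∀ w', w' ≠ w → mixedEmbedding.normAtPlace w' e = 0) ∧ mixedEmbedding.normAtPlace w (1 - e) = 0 := by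
  classical
  rcases w.isReal_or_isComplex with hr | hc
  · refine ⟨(plcR w hr).i 1, fun w' hw' => plcR_at w hr w' hw' 1, ?_⟩
    rw [mixedEmbedding.normAtPlace_apply_of_isReal hr]
    show ‖(1 : ℝ) - s1 (⟨w, hr⟩ : {w : InfinitePlace L // w.IsReal}) 1 ⟨w, hr⟩‖ = 0
    rw [s1_same, sub_self, norm_zero]
  · refine ⟨(plcC w hc).i 1, fun w' hw' => plcC_at w hc w' hw' 1, ?_⟩
    rw [mixedEmbedding.normAtPlace_apply_of_isComplex hc]
    show ‖(1 : ℂ) - s1 (⟨w, hc⟩ : {w : InfinitePlace L // w.IsComplex}) 1 ⟨w, hc⟩‖ = 0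
    rw [s1_same, sub_self, norm_zero]

theorem nap_le (w : InfinitePlace L) (x : mixedEmbedding.mixedSpace L) : mixedEmbedding.normAtPlace w x ≤ ‖x‖ := by
  rw [mixedEmbedding.norm_eq_sup'_normAtPlace]
  exact Finset.le_sup' (fun w => mixedEmbedding.normAtPlace w x) (Finset.mem_univ w)

theorem le_nap {x : mixedEmbedding.mixedSpace L} {B : ℝ} (h : ∀ w, mixedEmbedding.normAtPlace w x ≤ B) : ‖x‖ ≤ B := by
  rw [mixedEmbedding.norm_eq_sup'_normAtPlace]
  exact Finset.sup'_le _ _ fun w _ => h w

theorem nap_one_add {w : InfinitePlace L} {x : mixedEmbedding.mixedSpace L} (h : mixedEmbedding.normAtPlace w x = 0) : mixedEmbedding.normAtPlace w (1 + x) = 1 := by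
  rcases w.isReal_or_isComplex with hr | hc
  · rw [mixedEmbedding.normAtPlace_apply_of_isReal hr] at h ⊢
    have h1 : x.1 ⟨w, hr⟩ = 0 := norm_eq_zero.1 h
    show ‖(1 : ℝ) + x.1 ⟨w, hr⟩‖ = 1
    rw [h1, add_zero, norm_one]
  · rw [mixedEmbedding.normAtPlace_apply_of_isComplex hc] at h ⊢
    have h1 : x.2 ⟨w, hc⟩ = 0 := norm_eq_zero.1 h
    show ‖(1 : ℂ) + x.2 ⟨w, hc⟩‖ = 1
    rw [h1, add_zero, norm_one]

variable {F : Type} [RCLike F] {w : InfinitePlace L} {p : mixedEmbedding.mixedSpace L →+* F}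

theorem p_cont (hn : ∀ x, ‖p x‖ = mixedEmbedding.normAtPlace w x) : Continuous p :=
  AddMonoidHomClass.continuous_of_bound p 1 fun x => by
    rw [one_mul, hn]
    exact nap_le w x

theorem p_zero (hn : ∀ x, ‖p x‖ = mixedEmbedding.normAtPlace w x) {x : mixedEmbedding.mixedSpace L} : mixedEmbedding.normAtPlace w x = 0 ↔ p x = 0 := by
  rw [← hn, norm_eq_zero]

/-- The degree of the completion. -/
theorem mult_eq (hs : Function.Surjective p) (hn : ∀ x, ‖p x‖ = mixedEmbedding.normAtPlace w x) : w.mult = Module.finrank ℝ F := by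
  classical
  have key : ∀ {F₀ : Type} [RCLike F₀] (v₀ : Plc L F₀), (∀ t, mixedEmbedding.normAtPlace w (v₀.i t) = ‖t‖) → (∀ w', w' ≠ w → ∀ t, mixedEmbedding.normAtPlace w' (v₀.i t) = 0) →
      mixedEmbedding.normAtPlace w (1 - v₀.i 1) = 0 → Module.finrank ℝ F₀ = Module.finrank ℝ F := by
    intro F₀ _ v₀ h1 h2 h3
    have e1 : p (v₀.i 1) = 1 := by
      have h4 := (p_zero hn).1 h3
      rw [map_sub, map_one, sub_eq_zero] at h4
      exact h4.symm
    let ψ : F₀ →ₗ[ℝ] F := {
      toFun := fun t => p (v₀.i t)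
      map_add' := fun s t => by rw [map_add, map_add]
      map_smul' := fun c t => by
        rw [map_real_smul v₀.i v₀.i_cont, map_real_smul p (p_cont hn)]
        rfl }
    have hi : Function.Injective ψ := (injective_iff_map_eq_zero ψ).2 fun t ht => by
      have h4 : p (v₀.i t) = 0 := ht
      rw [← p_zero hn, h1, norm_eq_zero] at h4
      exact h4
    have hj : Function.Surjective ψ := fun s => by
      obtain ⟨x, rfl⟩ := hs s
      refine ⟨v₀.p x, ?_⟩
      show p (v₀.i (v₀.p x)) = p x
      have h4 := v₀.i_x 1 x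
      rw [one_mul] at h4
      rw [← h4, map_mul, e1, one_mul]
    exact (LinearEquiv.ofBijective ψ ⟨hi, hj⟩).finrank_eq
  rcases w.isReal_or_isComplex with hr | hc
  · have h1 : w.mult = 1 := by
      unfold InfinitePlace.mult
      rw [if_pos hr]
    rw [h1, ← Module.finrank_self ℝ]
    refine key (plcR w hr) (fun t => ?_) (fun w' hw' t => plcR_at w hr w' hw' t) ?_
    · rw [mixedEmbedding.normAtPlace_apply_of_isReal hr]
      show ‖s1 (⟨w, hr⟩ : {w : InfinitePlace L // w.IsReal}) t ⟨w, hr⟩‖ = ‖t‖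
      rw [s1_same]
    · rw [mixedEmbedding.normAtPlace_apply_of_isReal hr]
      show ‖(1 : ℝ) - s1 (⟨w, hr⟩ : {w : InfinitePlace L // w.IsReal}) 1 ⟨w, hr⟩‖ = 0
      rw [s1_same, sub_self, norm_zero]
  · have h1 : w.mult = 2 := by
      unfold InfinitePlace.mult
      rw [if_neg (InfinitePlace.not_isReal_iff_isComplex.2 hc)]
    rw [h1, ← Complex.finrank_real_complex]
    refine key (plcC w hc) (fun t => ?_) (fun w' hw' t => plcC_at w hc w' hw' t) ?_
    · rw [mixedEmbedding.normAtPlace_apply_of_isComplex hc]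
      show ‖s1 (⟨w, hc⟩ : {w : InfinitePlace L // w.IsComplex}) t ⟨w, hc⟩‖ = ‖t‖
      rw [s1_same]
    · rw [mixedEmbedding.normAtPlace_apply_of_isComplex hc]
      show ‖(1 : ℂ) - s1 (⟨w, hc⟩ : {w : InfinitePlace L // w.IsComplex}) 1 ⟨w, hc⟩‖ = 0
      rw [s1_same, sub_self, norm_zero]

/-- **The place as a structure `Plc`.** -/
theorem ex_plc (hs : Function.Surjective p) (hn : ∀ x, ‖p x‖ = mixedEmbedding.normAtPlace w x) : ∃ v : Plc L F, v.p = p ∧ ∀ w', w' ≠ w → ∀ t, mixedEmbedding.normAtPlace w' (v.i t) = 0 := by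
  classical
  obtain ⟨e, he1, he2⟩ := ex_idem w
  have key : ∀ x y, p x = p y → e * x = e * y := fun x y h => by
    rw [← sub_eq_zero, ← mul_sub, ← mixedEmbedding.forall_normAtPlace_eq_zero_iff]
    intro w'
    rw [map_mul]
    by_cases hw : w' = w
    · have h1 : mixedEmbedding.normAtPlace w (x - y) = 0 := by rw [p_zero hn, map_sub, h, sub_self]
      rw [hw, h1, mul_zero]
    · rw [he1 w' hw, zero_mul]
  have pe : p e = 1 := by
    have h4 := (p_zero hn).1 he2
    rw [map_sub, map_one, sub_eq_zero] at h4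
    exact h4.symm
  have ee : e * e = e := by
    have h := key e 1 (by rw [pe, map_one])
    rwa [mul_one] at h
  obtain ⟨q, hq⟩ : ∃ q : F → mixedEmbedding.mixedSpace L, ∀ t, p (q t) = t := ⟨fun t => (hs t).choose, fun t => (hs t).choose_spec⟩
  let i : F →ₙ+* mixedEmbedding.mixedSpace L := {
    toFun := fun t => e * q t
    map_zero' := by
      have h := key (q 0) 0 (by rw [hq, map_zero])
      rw [h, mul_zero]
    map_add' := fun s t => by
      rw [← mul_add]
      exact key _ _ (by rw [hq, map_add, hq, hq])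
    map_mul' := fun s t => by
      have h := key (q (s * t)) (q s * q t) (by rw [hq, map_mul, hq, hq])
      rw [h]
      linear_combination (-(q s * q t)) * ee }
  have i_def : ∀ t, i t = e * q t := fun t => rfl
  have pi' : ∀ t, p (i t) = t := fun t => by rw [i_def, map_mul, pe, one_mul, hq]
  have iat : ∀ w', w' ≠ w → ∀ t, mixedEmbedding.normAtPlace w' (i t) = 0 := fun w' hw t => by rw [i_def, map_mul, he1 w' hw, zero_mul]
  have inw : ∀ t, mixedEmbedding.normAtPlace w (i t) = ‖t‖ := fun t => by rw [← hn, pi']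
  refine ⟨{
    p := p
    i := i
    p_i := pi'
    i_x := fun t x => by
      rw [i_def, i_def, mul_assoc]
      exact key _ _ (by rw [map_mul, hq, hq])
    p_cont := p_cont hn
    i_cont := AddMonoidHomClass.continuous_of_bound i 1 fun t => by
      rw [one_mul]
      refine le_nap fun w' => ?_
      by_cases hw : w' = w
      · rw [hw, inw]
      · rw [iat w' hw]
        exact norm_nonneg _
    nrm := fun t => by
      rw [plc_norm _ w fun w' hw => nap_one_add (iat w' hw _), ← mult_eq hs hn, ← hn, map_add, map_one, pi', add_sub_cancel] }, rfl, iat⟩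

end place

variable {ι M N : Type} [Fintype ι] [DecidableEq ι] [AddCommGroup M] [Module ℚ M] [AddCommGroup N] [Module ℚ N]
  {P : RootPairing ι ℚ M N} [P.IsCrystallographic] {b : P.Base} {K L : Type} [Field K] [NumberField K] [Field L] [NumberField L] [Algebra K L] (Q : QS b K L)

/-- The action of the Galois group in the form of QStm.lean. -/
def old : L1S.QS b K L := ⟨Q.act, fun s => ⟨Q.base s, Q.pair s⟩⟩

theorem gq_eq : GQ Q = L1S.HQ (old Q) := rfl

theorem gr_eq : GR Q = L1S.HRs (L1S.HQ (old Q)) := rfl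

variable [P.IsRootSystem] [P.IsReduced] [P.IsIrreducible] {Q} {F : Type} [RCLike F]

theorem nap_sum {α : Type} (w : InfinitePlace L) (S : Finset α) (x : α → mixedEmbedding.mixedSpace L) (h : ∀ a ∈ S, mixedEmbedding.normAtPlace w (x a) = 0) : mixedEmbedding.normAtPlace w (∑ a ∈ S, x a) = 0 := by
  classical
  induction S using Finset.induction_on with
  | empty => rw [Finset.sum_empty, map_zero]
  | insert a S ha ih =>
    rw [Finset.sum_insert ha]
    refine le_antisymm ((mixedEmbedding.normAtPlace_add_le w _ _).trans ?_) (mixedEmbedding.normAtPlace_nonneg _ _)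
    rw [h a (Finset.mem_insert_self _ _), ih fun b hb => h b (Finset.mem_insert_of_mem hb), add_zero]

theorem nap_sub {w : InfinitePlace L} {x y : mixedEmbedding.mixedSpace L} (hx : mixedEmbedding.normAtPlace w x = 0) (hy : mixedEmbedding.normAtPlace w y = 0) : mixedEmbedding.normAtPlace w (x - y) = 0 := by
  refine le_antisymm ?_ (mixedEmbedding.normAtPlace_nonneg _ _)
  rw [sub_eq_add_neg]
  refine (mixedEmbedding.normAtPlace_add_le w _ _).trans ?_
  rw [hx, mixedEmbedding.normAtPlace_neg, hy, add_zero]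

/-- **The embedding is the standard embedding.** -/
theorem pl_plH [IsGalois K L] (V : Pl K (eQ b) (fQ b) (GR Q) F) : ∃ V' : PlH (L1S.HQ (old Q)) F (trQ (old Q)), V'.j = V.j := by
  obtain ⟨v, hp, hv⟩ := ex_plc V.surj V.norm
  have ho : Orth K v := orth_of v hv V.unr
  refine ⟨plQ (old Q) ho, ?_⟩
  refine MonoidHom.ext fun g => Subtype.ext (Subtype.ext (Units.ext (Matrix.ext fun r c => ?_)))
  obtain ⟨x, hx⟩ : ∃ x : L1S.HRt (L1S.HQ (old Q)), x = V.j g := ⟨_, rfl⟩
  obtain ⟨y, hy⟩ : ∃ y : L1S.HRt (L1S.HQ (old Q)), y = (plQ (old Q) ho).j g := ⟨_, rfl⟩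
  have y1 : y.1.1.1 = jqM (old Q) v g.1.1 := by rw [hy]; rfl
  have goal : ∀ r c, x.1.1.1 r c = y.1.1.1 r c := by
    intro r c
    rw [← sub_eq_zero, ← mixedEmbedding.forall_normAtPlace_eq_zero_iff]
    intro w'
    by_cases hw : w'.comap (algebraMap K L) = V.w.comap (algebraMap K L)
    · obtain ⟨σ, hσ⟩ := InfinitePlace.exists_smul_eq_of_comap_eq hw.symm
      have fx : ∀ z : L1S.HRt (L1S.HQ (old Q)), z.1.1.1 r c = sE σ (z.1.1.1 (((old Q).da σ).pI.symm r) (((old Q).da σ).pI.symm c)) := fun z =>
        (congrFun (congrFun (hr_fix (old Q) z.2 σ) r) c).symm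
      rw [fx x, fx y, ← map_sub, sE_norm]
      have h1 : w'.comap (σ : L →+* L) = V.w := by
        rw [← hσ]
        refine InfinitePlace.ext _ _ fun z => ?_
        show V.w (σ.symm (σ z)) = V.w z
        rw [AlgEquiv.symm_apply_apply]
      rw [h1, ← V.norm, map_sub]
      have h2 : V.p (x.1.1.1 (((old Q).da σ).pI.symm r) (((old Q).da σ).pI.symm c)) = g.1.1 (((old Q).da σ).pI.symm r) (((old Q).da σ).pI.symm c) := by
        rw [hx]
        exact V.at_w g _ _
      have h3 : V.p (y.1.1.1 (((old Q).da σ).pI.symm r) (((old Q).da σ).pI.symm c)) = g.1.1 (((old Q).da σ).pI.symm r) (((old Q).da σ).pI.symm c) := by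
        rw [y1, ← hp]
        exact congrFun (congrFun (p_jqM ho g.1.1) _) _
      rw [h2, h3, sub_self, norm_zero]
    · have h1 : mixedEmbedding.normAtPlace w' ((x.1.1.1 - 1) r c) = 0 := by
        rw [hx]
        exact V.off_w w' hw g r c
      have h2 : mixedEmbedding.normAtPlace w' ((y.1.1.1 - 1) r c) = 0 := by
        rw [y1]
        unfold jqM Jq
        rw [add_sub_cancel_left, Matrix.sum_apply]
        refine nap_sum w' _ _ fun s _ => ?_
        show mixedEmbedding.normAtPlace w' (sE s (v.i _)) = 0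
        rw [sE_norm]
        refine hv _ (fun e => hw ?_) _
        rw [← e]
        refine InfinitePlace.ext _ _ fun z => ?_
        show w' (algebraMap K L z) = w' (s (algebraMap K L z))
        rw [AlgEquiv.commutes]
      have h3 := nap_sub h1 h2
      rw [Matrix.sub_apply, Matrix.sub_apply, sub_sub_sub_cancel_right] at h3
      exact h3
  have h := goal r c
  rw [hx, hy] at h
  exact h.symm

/-- **The places.** -/
theorem places [IsGalois K L] : Places Q := by
  classical
  intro w hw
  have key : ∀ {F : Type} [RCLike F] (v : Plc L F), (∀ w', w' ≠ w → ∀ t, mixedEmbedding.normAtPlace w' (v.i t) = 0) → (∀ x, ‖v.p x‖ = mixedEmbedding.normAtPlace w x) →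
      ∃ V : Pl K (eQ b) (fQ b) (GR Q) F, V.w = w := by
    intro F _ v hv hn
    have ho : Orth K v := orth_of v hv hw
    refine ⟨{
      w := w
      unr := hw
      p := v.p
      surj := fun t => ⟨v.i t, v.p_i t⟩
      norm := hn
      j := (plQ (old Q) ho).j
      cont := (plQ (old Q) ho).j_cont
      at_w := fun g r c => congrFun (congrFun (p_jqM ho g.1.1) r) c
      off_w := fun w' hw' g r c => by
        show mixedEmbedding.normAtPlace w' ((jqM (old Q) v g.1.1 - 1) r c) = 0
        unfold jqM Jq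
        rw [add_sub_cancel_left, Matrix.sum_apply]
        refine nap_sum w' _ _ fun s _ => ?_
        show mixedEmbedding.normAtPlace w' (sE s (v.i _)) = 0
        rw [sE_norm]
        refine hv _ (fun e => hw' ?_) _
        rw [← e]
        refine InfinitePlace.ext _ _ fun z => ?_
        show w' (algebraMap K L z) = w' (s (algebraMap K L z))
        rw [AlgEquiv.commutes] }, rfl⟩
  constructor
  · intro hr
    exact key (plcR w hr) (fun w' hw' t => plcR_at w hr w' hw' t) fun x => (mixedEmbedding.normAtPlace_apply_of_isReal hr x).symm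
  · intro hc
    exact key (plcC w hc) (fun w' hw' t => plcC_at w hc w' hw' t) fun x => (mixedEmbedding.normAtPlace_apply_of_isComplex hc x).symm

end

end Pool.Agent.Lib.L8.PV
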